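import Mathlib
import Pool.Agent.V11190.Bicycle4

open Set Filter Topology
open Pool.Agent.V11190.Bicycle

namespace Pool.Agent.Results.MP_b4625f_gt.RotationOne

/-- `θ` is a solution on `[0, L]` of the no-skid equation `ℓ θ' = X' sin θ - Y' cos θ` for the front
track `Γ = (X, Y)` and the bicycle length `ℓ`. -/
def IsSteering (Γ : ℝ → ℂ) (L l : ℝ) (θ : ℝ → ℝ) : Prop :=
  ∀ t ∈ Icc 0 L, HasDerivWithinAt θ
    (((deriv Γ t).re * Real.sin (θ t) - (deriv Γ t).im * Real.cos (θ t)) / l) (Icc 0 L) t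

/-- The rear track `γ(t) = Γ(t) + ℓ (cos θ(t), sin θ(t))`. -/
noncomputable def rear (Γ : ℝ → ℂ) (l : ℝ) (θ : ℝ → ℝ) (t : ℝ) : ℂ :=
  Γ t + l * ⟨Real.cos (θ t), Real.sin (θ t)⟩

/-- The rotation number of a closed rear track. -/
noncomputable def rotationNumber (L : ℝ) (θ : ℝ → ℝ) : ℝ := (θ L - θ 0) / (2 * Real.pi)

/-- Every closed rear track of a simple strictly convex front track has rotation number `1`. -/
theorem result (Γ : ℝ → ℂ) (L : ℝ) (K : Set ℂ) (hΓ : IsConvexTrack Γ L K)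
    (hor : PosOriented Γ K) (l : ℝ) (hl : 0 < l) (θ : ℝ → ℝ) (hθ : IsSteering Γ L l θ)
    (hclosed : rear Γ l θ L = rear Γ l θ 0) : rotationNumber L θ = 1 := by
  have hpi := Real.pi_pos
  obtain ⟨v, φ, φ', tr⟩ := hΓ.toTrack hor
  have hsol : IsSol (1 / l) L (fun t => (deriv Γ t).re) (fun t => (deriv Γ t).im)
      (fun t => θ t + Real.pi) := by
    intro t ht
    refine ((hθ t ht).add_const _).congr_deriv ?_
    rw [Real.cos_add_pi, Real.sin_add_pi]
    ring
  have hΓL : Γ L = Γ 0 := by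
    have := hΓ.periodic 0
    rwa [zero_add] at this
  have hlne : (l : ℂ) ≠ 0 := by exact_mod_cast hl.ne'
  have h1 : (⟨Real.cos (θ L), Real.sin (θ L)⟩ : ℂ) = ⟨Real.cos (θ 0), Real.sin (θ 0)⟩ := by
    simp only [rear, hΓL] at hclosed
    exact mul_left_cancel₀ hlne (add_left_cancel hclosed)
  have hc : Real.cos (θ L) = Real.cos (θ 0) := (Complex.mk.inj h1).1
  have hs : Real.sin (θ L) = Real.sin (θ 0) := (Complex.mk.inj h1).2
  have hcos : Real.cos (θ L - θ 0) = 1 := by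
    rw [Real.cos_sub, hc, hs]
    have := Real.sin_sq_add_cos_sq (θ 0)
    linarith
  obtain ⟨k, hk⟩ := (Real.cos_eq_one_iff _).1 hcos
  have hk1 := closed_turn tr (one_div_pos.2 hl) hsol k (by linarith)
  rw [hk1, Int.cast_one, one_mul] at hk
  rw [rotationNumber, ← hk, div_self (by positivity)]

end Pool.Agent.Results.MP_b4625f_gt.RotationOne
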